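import Pool.Agent.helper60.MW.SpecB

/-! Row mw:ZSC (MP_f477b1_co): the minimal set is sigma compact. -/

set_option autoImplicit false

namespace Pool.Agent.MW

open MeasureTheory Set

theorem ZSC (hHCL : HCL_stmt) : ZSC_stmt := by
  intro ι D W K L hM
  have hc : (Function.support fun i => mass (D i) 0).Countable :=
    Summable.countable_support_ennreal hM
  have hu : IsSigmaCompact (univ : Set ℂ) := isSigmaCompact_univ
  unfold ZZ
  refine isSigmaCompact_iUnion _ fun m => ?_
  refine isSigmaCompact_biUnion hc fun i _ => ?_
  refine hu.of_isClosed_subset ?_ (subset_univ _)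
  exact isClosed_biInter fun j _ => hHCL _ _ _ _ _

end Pool.Agent.MW
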